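import Pool.Agent.Helper39.AF.Final

/-!
The dichotomy for Grothendieck classes on abelian varieties of dimension at most four: from the
statements on products to the intrinsic statement.
-/

namespace Pool.Agent.Helper39.AFD

open Module Pool.Agent.GPC Pool.Agent.Helper7 Pool.Agent.Helper39.AF

/-- the statement on a threefold times an elliptic curve with the same imaginary quadratic field -/
def ThreeOne : Prop := ∀ (I : Type) [Fintype I] (A : I → AbVar) (n : I → ℕ),
  (∀ i, (A i).IsSimple) →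
  (∀ i j, i ≠ j → ∀ f, (A i).IsMor (A j) f → ∀ v, f v = 0) →
  ∀ (p e : I), (∀ j, j = p ∨ j = e) → (∀ i, n i = 1) → (A p).g = 3 → (A e).g = 1 →
  ∀ (d : ℚ), (A p).IsQuadEnd d → (A e).IsQuadEnd d → ∀ (k : ℕ) (α : Form A n (2 * k)),
  IsGrothendieck A n k α →
    ∃ J : H1 A n → H1 A n, IsWeilStructure A n d J ∧
      ((∀ v, ∑ r, α (Function.update v r (J (v r))) = 0) ∨
       (k = 2 ∧ ∃ (z : ℂ) (v : Fin (2 * k) → H1 A n), z ^ 2 = -(d : ℂ) ∧
         (∀ r, J (v r) = z • v r) ∧ α v ≠ 0))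

/-- the statement on simple fourfolds whose endomorphism algebra is imaginary quadratic -/
def FourD : Prop := ∀ (I : Type) [Fintype I] (A : I → AbVar) (n : I → ℕ),
  (∀ i, (A i).IsSimple) → ∀ (i : I), (∀ j, j = i) → (∀ i, n i = 1) → (A i).g = 4 →
  ∀ (d : ℚ), (A i).IsQuadEnd d →
    (∃ J : H1 A n → H1 A n, IsWeilStructure A n d J ∧
      ∀ (k : ℕ) (α : Form A n (2 * k)), IsGrothendieck A n k α →
        ∀ v, ∑ r, α (Function.update v r (J (v r))) = 0) ∨
    ∃ w : Form A n (2 * 2), w ≠ 0 ∧ IsWeilClass A n 2 w ∧ IsGrothendieck A n 2 w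

section transfer

variable {X : AbVar} {I : Type} [Fintype I] {A : I → AbVar} {n : I → ℕ} {Φ : X.H1 ≃ₗ[ℂ] H1 A n}
  (hΦ : IsIsogeny X A n Φ)

include hΦ

omit [Fintype I] in
lemma grothendieck_back {k : ℕ} (α : Form A n (2 * k)) (hα : IsGrothendieck A n k α) :
    X.IsGrothendieckClass k (α.compLinearMap Φ.toLinearMap) := by
  refine ⟨fun v hv => ?_, fun v hv => ?_⟩
  · exact hα.1 (fun r => Φ (v r)) fun r => (hΦ.deRham _).mp (hv r)
  · exact hα.2 (fun r => Φ (v r)) fun r => (hΦ.betti _).mp (hv r)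

lemma weilStructure_back (hc : ∀ d J, IsWeilStructure A n d J → ∀ s, X.IsEnd s → X.IsAdjoint s s →
      ∀ v, J (Φ (s (Φ.symm v))) = Φ (s (Φ.symm (J v)))) {d : ℚ} {J : H1 A n → H1 A n}
    (hJ : IsWeilStructure A n d J) : X.IsWeilStructure d (fun v => Φ.symm (J (Φ v))) := by
  have hJ' := hJ
  obtain ⟨hd, hJE, hJ2, hJs, -⟩ := hJ
  refine ⟨hd, endo_back hΦ hJE, ?_, ?_, ?_⟩
  · intro v
    beta_reduce
    rw [Φ.apply_symm_apply, hJ2, map_smul, Φ.symm_apply_apply]
  · rintro ⟨c, hcc⟩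
    apply hJs
    refine ⟨c, fun v hv => ?_⟩
    have h1 := hcc (Φ.symm v) ((fil_symm hΦ v).mpr hv)
    beta_reduce at h1
    rw [Φ.apply_symm_apply] at h1
    have h2 := congrArg Φ h1
    rw [Φ.apply_symm_apply, map_smul, Φ.apply_symm_apply] at h2
    exact h2
  · intro s hs hsym v
    have h1 := hc d J hJ' s hs hsym (Φ v)
    rw [Φ.symm_apply_apply] at h1
    beta_reduce
    rw [h1, Φ.symm_apply_apply]

omit [Fintype I] hΦ in
/-- if `J` kills the transferred class then the transferred `J` kills the class -/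
lemma kill_back {k : ℕ} (α : X.Class (2 * k)) {J : H1 A n → H1 A n}
    (h : ∀ v : Fin (2 * k) → H1 A n,
      ∑ r, (α.compLinearMap Φ.symm.toLinearMap) (Function.update v r (J (v r))) = 0)
    (v : Fin (2 * k) → X.H1) :
    ∑ r, α (Function.update v r (Φ.symm (J (Φ (v r))))) = 0 := by
  rw [← h (fun t => Φ (v t))]
  refine Finset.sum_congr rfl fun r _ => ?_
  rw [AlternatingMap.compLinearMap_apply]
  congr 1
  funext t
  by_cases ht : t = r
  · subst ht
    rw [Function.update_self]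
    show Φ.symm (J (Φ (v t))) = Φ.symm (Function.update (fun t => Φ (v t)) t (J (Φ (v t))) t)
    rw [Function.update_self]
  · rw [Function.update_of_ne ht]
    show v t = Φ.symm (Function.update (fun t => Φ (v t)) r (J (Φ (v r))) t)
    rw [Function.update_of_ne ht, Φ.symm_apply_apply]

end transfer

/-- the projection onto the Weil classes does not change the value on eigenvectors -/
lemma wproj_eigen {X : AbVar} {d : ℚ} {J : X.H1 →ₗ[ℂ] X.H1} (hd : d ≠ 0) (α : X.Class (2 * 2))
    {z : ℂ} (hz : z ^ 2 = -(d : ℂ)) (v : Fin (2 * 2) → X.H1) (hv : ∀ r, J (v r) = z • v r) :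
    wproj d J α v = α v := by
  have hd' : (d : ℂ) ≠ 0 := Rat.cast_ne_zero.mpr hd
  have hF := four_lin α
  rw [eq_four, wproj_four, eq_four α, PF_expand hF, hv 0, hv 1, hv 2, hv 3]
  simp only [hF.smul1, hF.smul2, hF.smul3, hF.smul4]
  have hzz : z * z = -(d : ℂ) := by rw [← hz]; ring
  have h4 : z * (z * (z * (z * four α (v 0) (v 1) (v 2) (v 3)))) =
      (d : ℂ) ^ 2 * four α (v 0) (v 1) (v 2) (v 3) := by
    linear_combination (four α (v 0) (v 1) (v 2) (v 3) * (z * z - d)) * hzz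
  have h2 : z * (z * four α (v 0) (v 1) (v 2) (v 3)) =
      -(d : ℂ) * four α (v 0) (v 1) (v 2) (v 3) := by
    linear_combination (four α (v 0) (v 1) (v 2) (v 3)) * hzz
  rw [h4, h2]
  field_simp
  ring

/-- common part -/
lemma dich_of_isogeny (H : AllFour) (T1 : ThreeOne) (T3 : FourD) {X : AbVar} {I : Type} [Fintype I]
    {A : I → AbVar} {n : I → ℕ}
    {Φ : X.H1 ≃ₗ[ℂ] H1 A n} (hΦ : IsIsogeny X A n Φ) (hg : ∀ i, (A i).g ≠ 0)
    (hs : ∀ i, (A i).IsSimple)
    (hA : ∀ i j, i ≠ j → ∀ f, (A i).IsMor (A j) f → ∀ v, f v = 0) (hn : ∀ i, n i ≠ 0)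
    {ι : ∀ i, (A i).H1 → X.H1} (hι : ∀ i, (A i).IsMor X (ι i) ∧
      ∀ u v, X.pol (ι i u) (ι i v) = (A i).pol u v)
    (hc : ∀ d J, IsWeilStructure A n d J → ∀ s, X.IsEnd s → X.IsAdjoint s s →
      ∀ v, J (Φ (s (Φ.symm v))) = Φ (s (Φ.symm (J v))))
    (hX : X.g ≤ 4) :
    (∀ (k : ℕ) (α : X.Class (2 * k)), X.IsGrothendieckClass k α → X.IsDivisorialPlusWeil k α) ∨
    (∃ w : X.Class (2 * 2), w ≠ 0 ∧ X.IsWeil 2 w ∧ X.IsGrothendieckClass 2 w) ∨
    (X.g = 4 ∧ X.IsExceptional ∧ ∀ (k : ℕ) (α : X.Class (2 * k)), X.IsGrothendieckClass k α →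
      ∃ (d : ℚ) (J : X.H1 → X.H1), X.IsWeilStructure d J ∧
        ∀ v : Fin (2 * k) → X.H1, ∑ r, α (Function.update v r (J (v r))) = 0) := by
  classical
  have hgs := g_eq_of_isogeny Φ
  have hd : ∑ i, n i * (A i).g ≤ 4 := by rw [hgs]; exact hX
  by_cases hex4 : ∃ i d, (A i).g = 4 ∧ (A i).IsQuadEnd d
  · obtain ⟨i, d, h4, hq⟩ := hex4
    obtain ⟨h1, h2⟩ := numbers_four hg hn hd i h4
    have hX4 : X.g = 4 := by
      have h3 : n i * (A i).g ≤ ∑ x, n x * (A x).g :=
        Finset.single_le_sum (f := fun x => n x * (A x).g) (fun _ _ => Nat.zero_le _)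
          (Finset.mem_univ i)
      have h5 : n i * (A i).g = 4 := by rw [h2 i, h4]
      rw [h5, hgs] at h3
      exact le_antisymm hX h3
    have hXe : X.IsExceptional :=
      exceptional_of_quad hΦ h2 hA i i (fun l => Or.inl (h1 l)) d fun l => by rw [h1 l]; exact hq
    rcases T3 I A n hs i h1 h2 h4 d hq with ⟨J, hJ, hkill⟩ | ⟨w, hw0, hw, hwG⟩
    · refine Or.inr (Or.inr ⟨hX4, hXe, fun k α hα => ⟨d, _, weilStructure_back hΦ hc hJ, ?_⟩⟩)
      exact kill_back α (hkill k _ (grothendieck_transfer hΦ α hα))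
    · refine Or.inr (Or.inl ⟨w.compLinearMap Φ.toLinearMap, ?_, weil_back hΦ hc w hw,
        grothendieck_back hΦ w hwG⟩)
      intro h0
      apply hw0
      ext v
      have h3 := congrArg (fun β : X.Class (2 * 2) => β (fun t => Φ.symm (v t))) h0
      have h5 : w (fun t => Φ (Φ.symm (v t))) = 0 := h3
      have h6 : (fun t => Φ (Φ.symm (v t))) = v := by
        funext t; exact Φ.apply_symm_apply _
      rw [h6] at h5
      exact h5
  by_cases hex31 : ∃ i j d, (A i).g = 3 ∧ (A j).g = 1 ∧ (A i).IsQuadEnd d ∧ (A j).IsQuadEnd d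
  · obtain ⟨i, j, d, h3, h1, hqi, hqj⟩ := hex31
    obtain ⟨h4, h5, h6⟩ := numbers_three_one hg hn hd i j h3 h1
    have hX4 : X.g = 4 := by rw [← hgs]; exact h6
    have hXe : X.IsExceptional := exceptional_of_quad hΦ h5 hA i j h4 d fun l => by
      rcases h4 l with h | h
      · rw [h]; exact hqi
      · rw [h]; exact hqj
    by_cases hno : ∃ w : X.Class (2 * 2), w ≠ 0 ∧ X.IsWeil 2 w ∧ X.IsGrothendieckClass 2 w
    · exact Or.inr (Or.inl hno)
    refine Or.inr (Or.inr ⟨hX4, hXe, fun k α hα => ?_⟩)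
    obtain ⟨J, hJ, hk | ⟨rfl, z, v, hz, hv, hne⟩⟩ :=
      T1 I A n hs hA i j h4 h5 h3 h1 d hqi hqj k _ (grothendieck_transfer hΦ α hα)
    · exact ⟨d, _, weilStructure_back hΦ hc hJ, kill_back α hk⟩
    · exfalso
      apply hno
      have hJX := weilStructure_back hΦ hc hJ
      let Jl : X.H1 →ₗ[ℂ] X.H1 := hJX.2.1.linear.mk' _
      have hd0 : d ≠ 0 := hJX.1.ne'
      have hJE : X.IsEnd Jl := hJX.2.1
      have hG : wproj d Jl α ∈ GS X 2 := wproj_GS hJE hα
      refine ⟨wproj d Jl α, ?_, ⟨⟨rfl, hX4⟩, hG.2, d, _, hJX, fun v r s =>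
        wproj_weil (J := Jl) hd0 hJX.2.2.1 α v r s⟩, hG⟩
      intro h0
      apply hne
      have h7 : wproj d Jl α (fun t => Φ.symm (v t)) = α (fun t => Φ.symm (v t)) := by
        refine wproj_eigen hd0 α hz _ fun r => ?_
        show Φ.symm (J (Φ (Φ.symm (v r)))) = z • Φ.symm (v r)
        rw [Φ.apply_symm_apply, hv, map_smul]
      rw [h0] at h7
      exact h7.symm
  · left
    intro k α hα
    have h := H I A n hg hs hA hn hd (fun i d h4 hq => absurd ⟨i, d, h4, hq⟩ hex4)
      (fun i j d h3 h1 hqi hqj => absurd ⟨i, j, d, h3, h1, hqi, hqj⟩ hex31) k _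
      (grothendieck_transfer hΦ α hα)
    exact divisorialPlusWeil_of hΦ hc hι α h

/-- **The intrinsic dichotomy** -/
theorem intrinsic_dich (H : AllFour) (T1 : ThreeOne) (T3 : FourD) (X : AbVar) (hX : X.g ≤ 4) :
    (∀ (k : ℕ) (α : X.Class (2 * k)), X.IsGrothendieckClass k α ↔
      ∃ (m : ℕ) (w : Fin m → X.Class (2 * k)),
        (∀ r, X.IsWeil k (w r) ∧ X.IsGrothendieckClass k (w r)) ∧
        X.IsDivisorialClass k (α - ∑ r, w r)) ∨
    (X.g = 4 ∧ X.IsExceptional ∧ ∀ (k : ℕ) (α : X.Class (2 * k)), X.IsGrothendieckClass k α →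
      ∃ (d : ℚ) (J : X.H1 → X.H1), X.IsWeilStructure d J ∧
        ∀ v : Fin (2 * k) → X.H1, ∑ r, α (Function.update v r (J (v r))) = 0) := by
  classical
  have key : (∀ (k : ℕ) (α : X.Class (2 * k)), X.IsGrothendieckClass k α →
        X.IsDivisorialPlusWeil k α) ∨
      (∃ w : X.Class (2 * 2), w ≠ 0 ∧ X.IsWeil 2 w ∧ X.IsGrothendieckClass 2 w) ∨
      (X.g = 4 ∧ X.IsExceptional ∧ ∀ (k : ℕ) (α : X.Class (2 * k)), X.IsGrothendieckClass k α →
        ∃ (d : ℚ) (J : X.H1 → X.H1), X.IsWeilStructure d J ∧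
          ∀ v : Fin (2 * k) → X.H1, ∑ r, α (Function.update v r (J (v r))) = 0) := by
    by_cases hXs : X.IsSimple ∧ X.g ≠ 0
    · obtain ⟨hs, hg0⟩ := hXs
      let A : Unit → AbVar := fun _ => X
      let n : Unit → ℕ := fun _ => 1
      let Φ : X.H1 ≃ₗ[ℂ] H1 A n :=
        { toFun := fun v _ _ => v
          invFun := fun y => y () 0
          map_add' := fun _ _ => rfl
          map_smul' := fun _ _ => rfl
          left_inv := fun _ => rfl
          right_inv := fun y => by
            funext i m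
            exact congrArg (y i) (Subsingleton.elim (α := Fin 1) 0 m) }
      have hΦ : IsIsogeny X A n Φ :=
        ⟨fun v => ⟨fun h _ _ => h, fun h => h () 0⟩, fun v => ⟨fun h _ _ => h, fun h => h () 0⟩,
          fun v => ⟨fun h _ _ => h, fun h => h () 0⟩⟩
      refine dich_of_isogeny H T1 T3 hΦ (fun _ => hg0) (fun _ => hs)
        (fun i j hij => absurd (Subsingleton.elim i j) hij) (fun _ => one_ne_zero)
        (ι := fun _ v => v) (fun _ => ⟨isMor_id X, fun _ _ => rfl⟩) ?_ hX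
      rintro d J ⟨-, hJE, -, -, hJ | ⟨i, -, -, hJ⟩⟩ s hsE hsym v
      · exact hJ _ (endo_forth hΦ hsE) v
      · obtain ⟨q, hq⟩ := hJ s hsE hsym
        have h1 : ∀ v : H1 A n, Φ (s (Φ.symm v)) = (q : ℂ) • v := by
          intro v
          rw [hq, map_smul, Φ.apply_symm_apply]
        rw [h1, h1, hJE.linear.map_smul]
    · obtain ⟨I, _, A, n, Φ, ι, hΦ, hg, hs, hA, hn, -, hι⟩ := exists_decomp X
      refine dich_of_isogeny H T1 T3 hΦ hg hs hA hn hι ?_ hX
      rintro d J ⟨-, hJE, -, -, hJ | ⟨i, hi, hni, -⟩⟩ s hsE hsym v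
      · exact hJ _ (endo_forth hΦ hsE) v
      · exfalso
        apply hXs
        have hn1 : ∀ l, n l = 1 := fun l => by rw [hi l]; exact hni
        refine ⟨?_, ?_⟩
        · intro f hf hf0
          obtain ⟨T, hT, hfT⟩ := endo_diag hn1 hA (endo_forth hΦ hf)
          obtain ⟨x, hx⟩ := hf0
          have hTinj : Function.Injective (T i) := by
            apply hs i _ (hT i)
            by_contra hcon
            push Not at hcon
            apply hx
            apply Φ.injective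
            rw [map_zero]
            funext l m
            have h1 := hfT (Φ x) l m
            rw [Φ.symm_apply_apply] at h1
            rw [h1]
            have hl := hi l
            subst hl
            exact hcon _
          intro u u' huu
          apply Φ.injective
          funext l m
          have hl := hi l
          subst hl
          apply hTinj
          have h1 := hfT (Φ u) l m
          have h2 := hfT (Φ u') l m
          rw [Φ.symm_apply_apply] at h1 h2
          rw [← h1, ← h2, huu]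
        · intro h0
          have hgs := g_eq_of_isogeny Φ
          rw [h0] at hgs
          have h3 : n i * (A i).g ≤ ∑ x, n x * (A x).g :=
            Finset.single_le_sum (f := fun x => n x * (A x).g) (fun _ _ => Nat.zero_le _)
              (Finset.mem_univ i)
          rw [hgs, hni, one_mul] at h3
          exact hg i (Nat.le_zero.mp h3)
  rcases key with h | h | h
  · refine Or.inl fun k α => ⟨fun hα => split hα (h k α hα), ?_⟩
    rintro ⟨m, w, hw, hδ⟩
    have h1 : α = (α - ∑ r, w r) + ∑ r, w r := by abel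
    rw [h1]
    exact (GS X k).add_mem (grothendieck_of_divisorial hδ)
      ((GS X k).sum_mem fun r _ => (hw r).2)
  · exact Or.inl fun k α => intrinsic_iff H X hX (fun _ _ => h) k α
  · exact Or.inr h

end Pool.Agent.Helper39.AFD
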